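import Pool.Graph.R_pool_sql_team_seeded_3997aac3.Q182.MZ.LFb

/-! Project BT (helper509), job LD: **the kernel of all local components of the Artin character of a
quadratic extension is the group of the local norms**. -/

set_option autoImplicit false
set_option linter.unusedSectionVars false

namespace Pool.Agent.H294.BT

open NumberField IsDedekindDomain Module
open Pool.Agent.Q92.AR (Dv prin Pr Ray RayD art nmD nu up puD Cong Pos frob IsFrobenius Unramified Ram
  SupF prin_mul prin_div prin_one prin_inv mem_Pr val_eq_one nmD_single art_single frob_spec)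
open Pool.Agent.Q20.EX (CongAt)
open Pool.Agent.Q5.MZ (LocN NonSplit PosRam VAData)
open Pool.Agent.Q38.EX (near_one near_mul near_inv near_div near_prod exists_exp_le val_nat_lt_one
  val_nat_ne_zero approx nu_eq val_nat norm_cong exists_above)
open Pool.Agent.Q125.AR (mem_under prin_eq_zero_of_valuation prin_mem_Pr Ray_mono Ram_mono)
open Pool.Agent.Q182.MZ (apxAt prin_eq_of_near artLoc)

section
variable {k : Type} [Field k] [NumberField k]

/-- the divisor of `z` without its part at `v` -/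
noncomputable def dz (v : HeightOneSpectrum (𝓞 k)) (z : kˣ) : Dv k :=
  prin z - Finsupp.single v (prin z v)

theorem dz_mul (v : HeightOneSpectrum (𝓞 k)) (z z' : kˣ) : dz v (z * z') = dz v z + dz v z' := by
  unfold dz
  rw [prin_mul, Finsupp.add_apply, Finsupp.single_add]
  abel

theorem dz_one (v : HeightOneSpectrum (𝓞 k)) : dz v (1 : kˣ) = 0 := by
  unfold dz
  rw [prin_one, Finsupp.coe_zero, Pi.zero_apply, Finsupp.single_zero, sub_zero]

theorem pos_one : Pos ((1 : kˣ) : k) := fun φ => by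
  rw [Units.val_one, map_one]
  exact one_pos

theorem pos_mul {z z' : kˣ} (h : Pos (z : k)) (h' : Pos (z' : k)) : Pos ((z * z' : kˣ) : k) :=
  fun φ => by
    rw [Units.val_mul, map_mul]
    exact mul_pos (h φ) (h' φ)

theorem congAt_mul {S : Set (HeightOneSpectrum (𝓞 k))} {N : ℕ} {z z' : kˣ}
    (h : CongAt S N (z : k)) (h' : CongAt S N (z' : k)) : CongAt S N ((z * z' : kˣ) : k) :=
  fun v hv hN => by
    rw [Units.val_mul]
    exact near_mul _ (val_nat_lt_one hN) (h v hv hN) (h' v hv hN)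

theorem congAt_one {S : Set (HeightOneSpectrum (𝓞 k))} {N : ℕ} : CongAt S N ((1 : kˣ) : k) :=
  fun v _ _ => by
    rw [Units.val_one, sub_self, map_zero]
    exact zero_le

variable {E : Type} [Field E] [NumberField E] [Algebra k E]

/-- independence of the approximating element -/
theorem indep (ψ : (E ≃ₐ[k] E) →* ℂˣ) {N : ℕ} (hker : ∀ x ∈ Ray k N, art ψ (prin x) = 0)
    {v : HeightOneSpectrum (𝓞 k)} (hv : (N : 𝓞 k) ∈ v.asIdeal) {z z' : kˣ}
    (hz1 : Pos (z : k)) (hz1' : Pos (z' : k)) (hz2 : CongAt {v}ᶜ N (z : k))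
    (hz2' : CongAt {v}ᶜ N (z' : k))
    (h : v.valuation k ((z : k) / (z' : k) - 1) ≤ v.valuation k (N : k)) :
    art ψ (dz v z) = art ψ (dz v z') := by
  have hray : z / z' ∈ Ray k N := by
    refine ⟨?_, ?_⟩
    · intro v' hv'
      rw [Units.val_div_eq_div_val]
      by_cases hvv : v' = v
      · rw [hvv]
        exact h
      · exact near_div _ (val_nat_lt_one hv') (hz2 v' (by simpa using hvv) hv')
          (hz2' v' (by simpa using hvv) hv')
    · intro φ
      rw [Units.val_div_eq_div_val, map_div₀]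
      exact div_pos (hz1 φ) (hz1' φ)
  have h1 := hker _ hray
  rw [prin_div, map_sub, sub_eq_zero] at h1
  unfold dz
  rw [map_sub, map_sub, h1, prin_eq_of_near hv h]

/-- the local component of the Artin character at `v` -/
theorem exists_psi (ψ : (E ≃ₐ[k] E) →* ℂˣ) {N : ℕ} (hN : N ≠ 0)
    (hker : ∀ x ∈ Ray k N, art ψ (prin x) = 0)
    (v : HeightOneSpectrum (𝓞 k)) (hv : (N : 𝓞 k) ∈ v.asIdeal) :
    ∃ Ψ : kˣ →* Multiplicative (Additive ℂˣ), ∀ x z : kˣ, Pos (z : k) → CongAt {v}ᶜ N (z : k) →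
      v.valuation k ((x : k) / (z : k) - 1) ≤ v.valuation k (N : k) →
      Ψ x = Multiplicative.ofAdd (art ψ (dz v z)) := by
  choose Z hZ1 hZ2 hZ3 using fun x : kˣ => apxAt hN v x
  have key : ∀ x z : kˣ, Pos (z : k) → CongAt {v}ᶜ N (z : k) →
      v.valuation k ((x : k) / (z : k) - 1) ≤ v.valuation k (N : k) →
      Multiplicative.ofAdd (art ψ (dz v (Z x))) = Multiplicative.ofAdd (art ψ (dz v z)) := by
    intro x z hz1 hz2 hz3
    rw [indep ψ hker hv (hZ1 x) hz1 (hZ2 x) hz2 ?_]
    have h1 := near_div _ (val_nat_lt_one hv) hz3 (hZ3 x hv)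
    have h2 : (x : k) / (z : k) / ((x : k) / (Z x : k)) = (Z x : k) / (z : k) := by
      have := x.ne_zero
      have := z.ne_zero
      have := (Z x).ne_zero
      field_simp
    rwa [h2] at h1
  refine ⟨MonoidHom.mk' (fun x => Multiplicative.ofAdd (art ψ (dz v (Z x)))) ?_, ?_⟩
  · intro x y
    rw [key (x * y) (Z x * Z y) (pos_mul (hZ1 x) (hZ1 y)) (congAt_mul (hZ2 x) (hZ2 y)) ?_,
      dz_mul, map_add, ofAdd_add]
    have h1 := near_mul _ (val_nat_lt_one hv) (hZ3 x hv) (hZ3 y hv)
    have h2 : (x : k) / (Z x : k) * ((y : k) / (Z y : k)) =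
        ((x * y : kˣ) : k) / ((Z x * Z y : kˣ) : k) := by
      rw [Units.val_mul, Units.val_mul, div_mul_div_comm]
    rwa [h2] at h1
  · intro x z hz1 hz2 hz3
    exact key x z hz1 hz2 hz3

end

/-- **JOB LD** -/
theorem ld : Pool.Agent.Q5.MZ.J_LD := by
  intro hLA hLB hLC k E _ _ _ _ _ _ σ N1 N2 A ψ h2 hVA hψ hker1 x hx
  classical
  have hmem : ∀ v : HeightOneSpectrum (𝓞 k), (N1 : 𝓞 k) ∈ v.asIdeal ↔ (N2 : 𝓞 k) ∈ v.asIdeal := by
    intro v
    constructor
    · intro h
      obtain ⟨c, rfl⟩ := hVA.dvd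
      rw [Nat.cast_mul]
      exact Ideal.mul_mem_right _ _ h
    · intro h
      obtain ⟨j, c, hc⟩ := hVA.pow
      have h3 : ((N1 : 𝓞 k)) ^ j ∈ v.asIdeal := by
        have h4 : ((N1 : 𝓞 k)) ^ j = (N2 : 𝓞 k) * (c : 𝓞 k) := by
          rw [← Nat.cast_pow, hc, Nat.cast_mul]
        rw [h4]
        exact Ideal.mul_mem_right _ _ h
      exact v.isPrime.mem_of_pow_mem j h3
  have hR2 : Ram k E N2 := Ram_mono hVA.dvd hVA.ram
  have hker2 : ∀ x ∈ Ray k N2, art ψ (prin x) = 0 := fun x hx => hker1 x (Ray_mono hVA.dvd hx)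
  have hB := hLB k E σ N1 N2 A h2 hVA
  set H : Subgroup kˣ := (nu k E).range ⊔ A.comap (up k E) with hH
  have hfin := Pool.Agent.Q125.AR.finite_dvd (F := k) hVA.n1
  have hfinB : Finite {v : HeightOneSpectrum (𝓞 k) // (N1 : 𝓞 k) ∈ v.asIdeal ∧ NonSplit E v} :=
    Set.Finite.to_subtype (hfin.subset (fun v hv => hv.1))
  have hN2B : ∀ v : {v : HeightOneSpectrum (𝓞 k) // (N1 : 𝓞 k) ∈ v.asIdeal ∧ NonSplit E v},
      (N2 : 𝓞 k) ∈ v.1.asIdeal := fun v => (hmem v.1).1 v.2.1
  choose Ψ hΨ using fun v : {v : HeightOneSpectrum (𝓞 k) //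
    (N1 : 𝓞 k) ∈ v.asIdeal ∧ NonSplit E v} => exists_psi ψ hVA.n2 hker2 v.1 (hN2B v)
  -- the kernel of all local components
  set K : Subgroup kˣ := ⨅ v, (Ψ v).ker with hK
  have hxK : x ∈ K := by
    rw [hK, Subgroup.mem_iInf]
    intro v
    obtain ⟨z, hz1, hz2, hz3, hz4⟩ := hx v.1 v.2.1 v.2.2
    rw [MonoidHom.mem_ker, hΨ v x z hz1 hz2 hz3]
    have : art ψ (dz v.1 z) = 0 := hz4
    rw [this, ofAdd_zero]
  -- it contains the norms and `A`
  have hHK : H ≤ K := by
    rw [hH]
    refine sup_le ?_ ?_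
    · rintro _ ⟨y, rfl⟩
      rw [hK, Subgroup.mem_iInf]
      intro v
      obtain ⟨z, hz1, hz2, hz3⟩ := apxAt hVA.n2 v.1 (nu k E y)
      rw [MonoidHom.mem_ker, hΨ v _ z hz1 hz2 (hz3 (hN2B v))]
      have hloc : LocN E v.1 (nu k E y) := fun m => ⟨y, by
        rw [div_self (Units.ne_zero _), sub_self, map_zero]
        exact zero_le⟩
      have : art ψ (dz v.1 z) = 0 :=
        artLoc ψ hVA.n2 hR2 hker2 (hN2B v) hloc hz1 hz2 (hz3 (hN2B v))
      rw [this, ofAdd_zero]
    · intro a ha
      rw [Subgroup.mem_comap] at ha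
      rw [hK, Subgroup.mem_iInf]
      intro v
      obtain ⟨z, hz1, hz2, hz3⟩ := apxAt hVA.n2 v.1 a
      rw [MonoidHom.mem_ker, hΨ v _ z hz1 hz2 (hz3 (hN2B v))]
      have hle : ∀ v' : HeightOneSpectrum (𝓞 k),
          v'.valuation k (N2 : k) ≤ v'.valuation k (N1 : k) := by
        intro v'
        obtain ⟨c, hc⟩ := hVA.dvd
        rw [hc, Nat.cast_mul, map_mul]
        have h3 : v'.valuation k (c : k) ≤ 1 := by
          have := v'.valuation_le_one (K := k) (c : 𝓞 k)
          simpa using this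
        calc v'.valuation k (N1 : k) * v'.valuation k (c : k)
            ≤ v'.valuation k (N1 : k) * 1 := by gcongr
          _ = _ := mul_one _
      have hav : v.1.valuation k ((a : k) - 1) ≤ v.1.valuation k (N1 : k) := by
        obtain ⟨W, hW⟩ := exists_above (M := E) v.1
        have hNW : (N1 : 𝓞 E) ∈ W.asIdeal := by
          rw [← mem_under (F := k), hW]
          exact v.2.1
        have h4 := hVA.sub _ ha W hNW
        have h5 : ((up k E a : Eˣ) : E) = algebraMap k E (a : k) := rfl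
        rw [h5, val_nat, hW] at h4
        exact h4
      have hzv : v.1.valuation k ((z : k) - 1) ≤ v.1.valuation k (N1 : k) := by
        have h1 := near_div _ (val_nat_lt_one v.2.1) hav ((hz3 (hN2B v)).trans (hle v.1))
        have h6 : (a : k) / ((a : k) / (z : k)) = (z : k) := by
          have := a.ne_zero
          have := z.ne_zero
          field_simp
        rwa [h6] at h1
      have hray : z ∈ Ray k N1 := by
        refine ⟨fun v' hv' => ?_, hz1⟩
        by_cases hvv : v' = v.1
        · rw [hvv]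
          exact hzv
        · exact (hz2 v' (by simpa using hvv) ((hmem v').1 hv')).trans (hle v')
      have h7 : prin z v.1 = 0 := prin_mem_Pr hray v.1 v.2.1
      have : art ψ (dz v.1 z) = 0 := by
        unfold dz
        rw [h7, Finsupp.single_zero, sub_zero]
        exact hker1 z hray
      rw [this, ofAdd_zero]
  -- elements with exactly one nontrivial component
  choose ζ hζ1 hζ2 hζ3 using fun v : {v : HeightOneSpectrum (𝓞 k) //
    (N1 : 𝓞 k) ∈ v.asIdeal ∧ NonSplit E v} =>
      hLC k E ψ v.1 N2 h2 hψ hVA.n2 (hN2B v) hR2 v.2.2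
  have hζne : ∀ v, Ψ v (ζ v) ≠ 1 := by
    intro v h
    rw [hΨ v (ζ v) (ζ v) (hζ1 v) (hζ2 v) (by
      rw [div_self (Units.ne_zero _), sub_self, map_zero]
      exact zero_le)] at h
    exact hζ3 v (ofAdd_eq_one.1 h)
  have hζone : ∀ v v', v' ≠ v → Ψ v' (ζ v) = 1 := by
    intro v v' hne
    rw [hΨ v' (ζ v) 1 pos_one congAt_one (by
      rw [Units.val_one, div_one]
      exact hζ2 v v'.1 (by
        rw [Set.mem_compl_iff, Set.mem_singleton_iff]
        exact fun h => hne (Subtype.ext h)) (hN2B v')), dz_one, map_zero, ofAdd_zero]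
  have : Fintype {v : HeightOneSpectrum (𝓞 k) // (N1 : 𝓞 k) ∈ v.asIdeal ∧ NonSplit E v} :=
    Fintype.ofFinite _
  let X : ({v : HeightOneSpectrum (𝓞 k) // (N1 : 𝓞 k) ∈ v.asIdeal ∧ NonSplit E v} → Bool) → kˣ :=
    fun f => ∏ v, if f v = true then ζ v else 1
  have hX : ∀ f v, Ψ v (X f) = if f v = true then Ψ v (ζ v) else 1 := by
    intro f v
    show Ψ v (∏ v', if f v' = true then ζ v' else 1) = _
    rw [map_prod, Finset.prod_eq_single v]
    · split_ifs
      · rfl
      · exact map_one _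
    · intro v' _ hne
      split_ifs
      · exact hζone v' v hne.symm
      · exact map_one _
    · intro h
      exact absurd (Finset.mem_univ v) h
  have hinj : Function.Injective fun f => (QuotientGroup.mk (X f) : kˣ ⧸ K) := by
    intro f g hfg
    have h1 : (X f)⁻¹ * X g ∈ K := QuotientGroup.eq.1 hfg
    rw [hK, Subgroup.mem_iInf] at h1
    funext v
    have h3 := h1 v
    rw [MonoidHom.mem_ker, map_mul, map_inv, hX, hX] at h3
    have h4 := hζne v
    by_cases hf : f v = true
    · by_cases hg : g v = true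
      · rw [hf, hg]
      · rw [if_pos hf, if_neg hg, mul_one, inv_eq_one] at h3
        exact absurd h3 h4
    · by_cases hg : g v = true
      · rw [if_neg hf, if_pos hg, inv_one, one_mul] at h3
        exact absurd h3 h4
      · rw [Bool.not_eq_true] at hf hg
        rw [hf, hg]
  have hmul := Subgroup.relIndex_mul_index hHK
  rw [hB] at hmul
  have hKne : K.index ≠ 0 := by
    intro h
    rw [h, mul_zero] at hmul
    exact absurd hmul.symm (by positivity)
  have hRne : H.relIndex K ≠ 0 := by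
    intro h
    rw [h, zero_mul] at hmul
    exact absurd hmul.symm (by positivity)
  have hKfin : Finite (kˣ ⧸ K) := by
    have : K.FiniteIndex := ⟨hKne⟩
    infer_instance
  have hcard : 2 ^ Nat.card {v : HeightOneSpectrum (𝓞 k) //
      (N1 : 𝓞 k) ∈ v.asIdeal ∧ NonSplit E v} ≤ K.index := by
    have h1 := Nat.card_le_card_of_injective _ hinj
    rw [Nat.card_fun, Nat.card_eq_fintype_card (α := Bool), Fintype.card_bool] at h1
    exact h1
  have hrel : H.relIndex K = 1 := by
    have h1 : 1 ≤ H.relIndex K := Nat.one_le_iff_ne_zero.2 hRne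
    by_contra hne
    have h3 : 2 ≤ H.relIndex K := by omega
    have h4 : 2 * K.index ≤ H.relIndex K * K.index := Nat.mul_le_mul_right _ h3
    omega
  exact (Subgroup.relIndex_eq_one.1 hrel) hxK

end Pool.Agent.H294.BT
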